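import Pool.Agent.H155Z.DTAut

namespace Pool.Agent.Results.MP_e5892f_al.AllFail

open Pool.Agent.H155Z.DT

/-- None of the natural actions of the rational groups `R_A`, the Brin-Thompson groups `nV`
(`n ≥ 2`) and the groups `Aut(V_{d,k})` satisfies the dynamical Tits alternative. -/
theorem result :
    (∀ (A : Type) [Fintype A] [TopologicalSpace A] [DiscreteTopology A],
      2 ≤ Fintype.card A → ¬ DynTits (RatGroup A)) ∧
    (∀ n : ℕ, 2 ≤ n → ¬ DynTits (BrinThompson n)) ∧
    (∀ d k : ℕ, 2 ≤ d → 1 ≤ k → ¬ DynTits (AutHT d k)) := by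
  refine ⟨fun A _ _ _ h => ?_, fun n hn => ?_, aut_not⟩
  · have : Nontrivial A := Fintype.one_lt_card_iff_nontrivial.1 h
    exact rat_not
  · obtain ⟨m, rfl⟩ : ∃ m, n = m + 2 := ⟨n - 2, by omega⟩
    exact nV_not m

end Pool.Agent.Results.MP_e5892f_al.AllFail
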